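import Mathlib
import Pool.Agent.W716.FV.StmA

/-!
# Lower bound for a determinant of a perturbation of the identity

For a symmetric operator with Hilbert-Schmidt norm at most `3/5` the absolute value of the
determinant of `A - 1` is at least `exp (-tr A - |A|²)`.
-/

set_option autoImplicit false

namespace Pool.Agent.W816.FV.DL

open Pool.Agent.W716.FV

/-- the logarithmic inequality -/
theorem log_ineq {x : ℝ} (h1 : -(3 / 5) ≤ x) (h2 : x ≤ 3 / 5) :
    -x - x ^ 2 ≤ Real.log (1 - x) := by
  -- `g x = log (1 - x) + x + x ^ 2`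
  let g : ℝ → ℝ := fun y => Real.log (1 - y) + y + y ^ 2
  have hd : ∀ y : ℝ, y < 1 → HasDerivAt g (y * (1 - 2 * y) / (1 - y)) y := by
    intro y hy
    have h : HasDerivAt (fun y : ℝ => 1 - y) (-1) y := by
      simpa using (hasDerivAt_id y).const_sub 1
    have h3 := (h.log (by linarith : (1 : ℝ) - y ≠ 0)).add (hasDerivAt_id y)
    have h4 := h3.add (hasDerivAt_pow 2 y)
    refine (h4.congr_deriv ?_)
    have : (1 : ℝ) - y ≠ 0 := by linarith
    field_simp
    ring
  have hc : ContinuousOn g (Set.Iio 1) := fun y hy => (hd y hy).continuousAt.continuousWithinAt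
  have h0 : g 0 = 0 := by simp [g]
  suffices h : 0 ≤ g x by
    have : g x = Real.log (1 - x) + x + x ^ 2 := rfl
    linarith
  rcases le_total x 0 with hx | hx
  · -- decreasing on `[-1, 0]`
    have hanti : AntitoneOn g (Set.Icc (-1) 0) := by
      apply antitoneOn_of_deriv_nonpos (convex_Icc _ _)
      · exact hc.mono (fun y hy => by have := hy.2; simp only [Set.mem_Iio]; linarith)
      · intro y hy
        rw [interior_Icc] at hy
        exact (hd y (by linarith [hy.2])).differentiableAt.differentiableWithinAt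
      · intro y hy
        rw [interior_Icc] at hy
        rw [(hd y (by linarith [hy.2])).deriv]
        apply div_nonpos_of_nonpos_of_nonneg
        · nlinarith [hy.1, hy.2]
        · linarith [hy.2]
    have := hanti (⟨by linarith, hx⟩ : x ∈ Set.Icc (-1 : ℝ) 0) (⟨by norm_num, le_refl _⟩ : (0 : ℝ) ∈ Set.Icc (-1 : ℝ) 0) hx
    linarith
  · rcases le_total x (1 / 2) with hx2 | hx2
    · have hmono : MonotoneOn g (Set.Icc 0 (1 / 2)) := by
        apply monotoneOn_of_deriv_nonneg (convex_Icc _ _)
        · exact hc.mono (fun y hy => by have := hy.2; simp only [Set.mem_Iio]; linarith)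
        · intro y hy
          rw [interior_Icc] at hy
          exact (hd y (by linarith [hy.2])).differentiableAt.differentiableWithinAt
        · intro y hy
          rw [interior_Icc] at hy
          rw [(hd y (by linarith [hy.2])).deriv]
          apply div_nonneg
          · nlinarith [hy.1, hy.2]
          · linarith [hy.2]
      have := hmono (⟨le_refl _, by norm_num⟩ : (0 : ℝ) ∈ Set.Icc (0 : ℝ) (1 / 2)) (⟨hx, hx2⟩ : x ∈ Set.Icc (0 : ℝ) (1 / 2)) hx
      linarith
    · have hanti : AntitoneOn g (Set.Icc (1 / 2) (3 / 5)) := by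
        apply antitoneOn_of_deriv_nonpos (convex_Icc _ _)
        · exact hc.mono (fun y hy => by have := hy.2; simp only [Set.mem_Iio]; linarith)
        · intro y hy
          rw [interior_Icc] at hy
          exact (hd y (by linarith [hy.2])).differentiableAt.differentiableWithinAt
        · intro y hy
          rw [interior_Icc] at hy
          rw [(hd y (by linarith [hy.2])).deriv]
          apply div_nonpos_of_nonpos_of_nonneg
          · nlinarith [hy.1, hy.2]
          · linarith [hy.2]
      have h5 := hanti (⟨hx2, h2⟩ : x ∈ Set.Icc (1 / 2 : ℝ) (3 / 5)) (⟨by norm_num, le_refl _⟩ : (3 / 5 : ℝ) ∈ Set.Icc (1 / 2 : ℝ) (3 / 5)) h2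
      have h6 : 0 ≤ g (3 / 5) := by
        have h7 : g (3 / 5) = Real.log (1 - 3 / 5) + 3 / 5 + (3 / 5) ^ 2 := rfl
        rw [h7]
        have h8 : -(24 / 25 : ℝ) ≤ Real.log (1 - 3 / 5) := by
          rw [Real.le_log_iff_exp_le (by norm_num), Real.exp_neg]
          have h9 : (5 / 2 : ℝ) ≤ Real.exp (24 / 25) := by
            have h10 := Real.sum_le_exp_of_nonneg (show (0 : ℝ) ≤ 24 / 25 by norm_num) 5
            refine le_trans ?_ h10
            simp only [Finset.sum_range_succ, Finset.sum_range_zero, Nat.factorial]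
            norm_num
          calc (Real.exp (24 / 25))⁻¹ ≤ (5 / 2 : ℝ)⁻¹ := inv_anti₀ (by norm_num) h9
            _ = 1 - 3 / 5 := by norm_num
        linarith
      linarith

theorem exp_ineq {x : ℝ} (h : x ^ 2 ≤ 9 / 25) : Real.exp (-x - x ^ 2) ≤ 1 - x := by
  have h1 : -(3 / 5) ≤ x := by nlinarith
  have h2 : x ≤ 3 / 5 := by nlinarith
  have h3 := log_ineq h1 h2
  rwa [Real.le_log_iff_exp_le (by linarith)] at h3

theorem main : DetLower := by
  intro n A hA hs
  set T : E n →ₗ[ℝ] E n := (A : E n →ₗ[ℝ] E n) with hTdef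
  have hT : T.IsSymmetric := by
    intro v w
    have h := hA v w
    rw [real_inner_comm] at h
    rw [real_inner_comm] at h
    exact h.trans (real_inner_comm _ _)
  have hn : Module.finrank ℝ (E n) = n := by simp
  set ev := hT.eigenvalues hn with hev
  set b := hT.eigenvectorBasis hn with hb
  -- sum of the squares
  have hsq : ∑ i, ‖A (EuclideanSpace.single i 1)‖ ^ 2 = ∑ i, ev i ^ 2 := by
    have h1 := LinearMap.trace_eq_sum_inner (T ∘ₗ T) (EuclideanSpace.basisFun (Fin n) ℝ)
    have h2 := LinearMap.trace_eq_sum_inner (T ∘ₗ T) b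
    have h3 : ∑ i, ‖A (EuclideanSpace.single i 1)‖ ^ 2 = LinearMap.trace ℝ (E n) (T ∘ₗ T) := by
      rw [h1]
      refine Finset.sum_congr rfl (fun i _ => ?_)
      rw [LinearMap.comp_apply, ← hT, EuclideanSpace.basisFun_apply, real_inner_self_eq_norm_sq]
      rfl
    rw [h3, h2]
    refine Finset.sum_congr rfl (fun i _ => ?_)
    rw [LinearMap.comp_apply, ← hT, hT.apply_eigenvectorBasis hn i, real_inner_self_eq_norm_sq,
      norm_smul, mul_pow]
    rw [(hT.eigenvectorBasis hn).norm_eq_one]
    simp [hev]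
  have htr : LinearMap.trace ℝ (E n) T = ∑ i, ev i := by
    have := hT.trace_eq_sum_eigenvalues hn
    simpa using this
  have hdet : (A - ContinuousLinearMap.id ℝ (E n)).det = ∏ i, (ev i - 1) := by
    rw [ContinuousLinearMap.det]
    have h1 : ((A - ContinuousLinearMap.id ℝ (E n) : E n →L[ℝ] E n) : E n →ₗ[ℝ] E n) =
        T - LinearMap.id := by
      ext v; simp [hTdef]
    rw [h1, ← LinearMap.det_toMatrix b.toBasis, map_sub, LinearMap.toMatrix_id,
      hT.toMatrix_eigenvectorBasis hn]
    rw [← Matrix.diagonal_one, Matrix.diagonal_sub, Matrix.det_diagonal]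
    rfl
  rw [hsq, htr, hdet]
  rw [hsq] at hs
  have hev2 : ∀ i, ev i ^ 2 ≤ 9 / 25 := fun i =>
    le_trans (Finset.single_le_sum (f := fun i => ev i ^ 2) (fun j _ => sq_nonneg _)
      (Finset.mem_univ i)) hs
  rw [Finset.abs_prod]
  rw [show -(∑ i, ev i) - ∑ i, ev i ^ 2 = ∑ i, (-ev i - ev i ^ 2) by
    rw [Finset.sum_sub_distrib, Finset.sum_neg_distrib]]
  rw [Real.exp_sum]
  refine Finset.prod_le_prod (fun i _ => (Real.exp_pos _).le) (fun i _ => ?_)
  refine (exp_ineq (hev2 i)).trans ?_
  rw [abs_sub_comm]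
  exact le_abs_self _

end Pool.Agent.W816.FV.DL
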