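import Mathlib
import Pool.Agent.W716.FV.StmA

/-!
# Hadamard inequality and the inequality of the means on `ℝ × ℝ^n`
-/

set_option autoImplicit false

namespace Pool.Agent.W816.FV.HD

open Pool.Agent.W716.FV

/-- the square of the determinant is at most the mean of the squares of the entries to the power
of the size -/
theorem det_sq_le {ι : Type*} [Fintype ι] [DecidableEq ι] [Nonempty ι] (M : Matrix ι ι ℝ) (C : ℝ)
    (h : ∑ j, ∑ i, M i j ^ 2 ≤ C) :
    M.det ^ 2 ≤ (C / Fintype.card ι) ^ (Fintype.card ι) := by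
  have hps : (M.conjTranspose * M).PosSemidef := Matrix.posSemidef_conjTranspose_mul_self M
  have hH := hps.isHermitian
  have hdet : M.det ^ 2 = ∏ i, hH.eigenvalues i := by
    have h1 := hH.det_eq_prod_eigenvalues
    rw [Matrix.det_mul, Matrix.det_conjTranspose] at h1
    simpa [sq] using h1
  have htr : ∑ j, ∑ i, M i j ^ 2 = ∑ i, hH.eigenvalues i := by
    have h1 := hH.trace_eq_sum_eigenvalues
    have h2 : (M.conjTranspose * M).trace = ∑ j, ∑ i, M i j ^ 2 := by
      simp only [Matrix.trace, Matrix.diag_apply, Matrix.mul_apply, Matrix.conjTranspose_apply,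
        star_trivial, sq]
    rw [h2] at h1
    simpa using h1
  have hnn : ∀ i, 0 ≤ hH.eigenvalues i := fun i => hps.eigenvalues_nonneg i
  have hc : (0 : ℝ) < Fintype.card ι := by exact_mod_cast Fintype.card_pos
  have ham := Real.geom_mean_le_arith_mean_weighted Finset.univ
    (fun _ : ι => (1 : ℝ) / Fintype.card ι) (fun i => hH.eigenvalues i)
    (fun i _ => by positivity) (by simp [Finset.sum_const]) (fun i _ => hnn i)
  have h3 : ∑ i, (1 : ℝ) / Fintype.card ι * hH.eigenvalues i ≤ C / Fintype.card ι := by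
    rw [← Finset.mul_sum, ← htr, div_mul_eq_mul_div, one_mul]
    exact div_le_div_of_nonneg_right h hc.le
  have h4 := ham.trans h3
  have h5 : (∏ i, hH.eigenvalues i ^ ((1 : ℝ) / Fintype.card ι)) ^ (Fintype.card ι) =
      ∏ i, hH.eigenvalues i := by
    rw [← Finset.prod_pow]
    refine Finset.prod_congr rfl (fun i _ => ?_)
    rw [← Real.rpow_natCast, ← Real.rpow_mul (hnn i), one_div_mul_cancel hc.ne', Real.rpow_one]
  rw [hdet, ← h5]
  exact pow_le_pow_left₀ (Finset.prod_nonneg (fun i _ => Real.rpow_nonneg (hnn i) _)) h4 _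

theorem main : DetHad := by
  intro n N C h
  classical
  set B : Module.Basis (Unit ⊕ Fin n) ℝ (ℝ × E n) :=
    (Module.Basis.singleton Unit ℝ).prod (EuclideanSpace.basisFun (Fin n) ℝ).toBasis with hB
  set M := LinearMap.toMatrix B B (N : (ℝ × E n) →ₗ[ℝ] (ℝ × E n)) with hM
  have hdet : N.det = M.det := by
    rw [ContinuousLinearMap.det, hM, LinearMap.det_toMatrix]
  have hcol : ∀ j, ∑ i, M i j ^ 2 = nsq (N (B j)) := by
    intro j
    rw [Fintype.sum_sum_type]
    have h1 : ∀ i, M i j = B.repr (N (B j)) i := by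
      intro i
      rw [hM, LinearMap.toMatrix_apply]
      rfl
    simp only [h1]
    simp only [hB, Module.Basis.prod_repr_inl, Module.Basis.prod_repr_inr]
    unfold nsq
    congr 1
    · simp
    · rw [EuclideanSpace.norm_sq_eq]
      simp
  have hsum : ∑ j, ∑ i, M i j ^ 2 ≤ C := by
    simp only [hcol]
    rw [Fintype.sum_sum_type]
    have h1 : B (Sum.inl ()) = (1, 0) := by
      simp [hB, Module.Basis.prod_apply]
    have h2 : ∀ i, B (Sum.inr i) = (0, EuclideanSpace.single i 1) := by
      intro i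
      simp [hB, Module.Basis.prod_apply]
    simp only [h1, h2]
    simpa using h
  have h1 := det_sq_le M C hsum
  rw [← hdet] at h1
  have hcard : Fintype.card (Unit ⊕ Fin n) = n + 1 := by
    simp [add_comm]
  rw [hcard] at h1
  push_cast at h1
  have hC : 0 ≤ C := le_trans (Finset.sum_nonneg (fun j _ => Finset.sum_nonneg
    (fun i _ => sq_nonneg _))) hsum
  have hC' : 0 ≤ C / ((n : ℝ) + 1) := by positivity
  have h2 : |N.det| = √(N.det ^ 2) := (Real.sqrt_sq_eq_abs _).symm
  rw [h2]
  refine (Real.sqrt_le_sqrt h1).trans (le_of_eq ?_)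
  rw [Real.sqrt_eq_rpow, ← Real.rpow_natCast, ← Real.rpow_mul hC']
  congr 1
  push_cast
  ring

end Pool.Agent.W816.FV.HD
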